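import Pool.Agent.helper83.HS.Inv
import Pool.Agent.helper84.WZ.All

/-!
# No group containing `ℤ² * ℤ` is poly-context-free (MP_65b1f6_lc)

The word problem of `ℤ² * ℤ` is not an intersection of finitely many context-free languages. More
generally let `G` be any group with a subgroup isomorphic to `ℤ² * ℤ` and let `f : X → G` be any
finite family of elements which generates a subgroup containing it. Then the words over
`X ∪ X⁻¹` representing the identity do not form an intersection of finitely many context-free
languages, and finitely many context-free languages which contain all of them have infinitely many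
other words in common. `Language.IsContextFree` is the Mathlib notion.
-/

set_option autoImplicit false

universe u v

namespace Pool.Agent.Results.MP_65b1f6_lc.NotPolyContextFree

/-- The free product `ℤ² * ℤ`. -/
abbrev Z2Z : Type := Monoid.Coprod (Multiplicative (ℤ × ℤ)) (Multiplicative ℤ)

/-- The word problem `WP(G, X)`: the words over `X ∪ X⁻¹` that represent the identity of `G`. The
letter `(x, true)` is the generator `f x` and the letter `(x, false)` is its inverse. -/
def wordProblem {G : Type u} [Group G] {X : Type v} (f : X → G) : Language (X × Bool) :=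
  {w | (w.map fun p => if p.2 then f p.1 else (f p.1)⁻¹).prod = 1}

/-- `L` is poly-context-free: it is the intersection of finitely many context-free languages. -/
def PolyContextFree {A : Type v} (L : Language A) : Prop :=
  ∃ (k : ℕ) (M : Fin k → Language A), (∀ i, (M i).IsContextFree) ∧ ∀ w, w ∈ L ↔ ∀ i, w ∈ M i

open Pool.Agent.helper83.HS in
lemma not_poly {G : Type u} [Group G] (φ : Z2Z →* G) (hφ : Function.Injective φ)
    {X : Type v} (f : X → G) (hf : φ.range ≤ Subgroup.closure (Set.range f)) :
    ¬ PolyContextFree (wordProblem f) := by
  rintro ⟨k, M, hM, hw⟩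
  set vl : X × Bool → G := fun p => if p.2 then f p.1 else (f p.1)⁻¹ with hvl
  have key : ∀ g ∈ Subgroup.closure (Set.range f), ∃ l : List (X × Bool), (l.map vl).prod = g := by
    intro g hg
    induction hg using Subgroup.closure_induction with
    | mem g hg =>
      obtain ⟨x, rfl⟩ := hg
      exact ⟨[(x, true)], by simp [hvl]⟩
    | one => exact ⟨[], rfl⟩
    | mul g g' _ _ ih ih' =>
      obtain ⟨l, h1⟩ := ih
      obtain ⟨l', h2⟩ := ih'
      exact ⟨l ++ l', by rw [List.map_append, List.prod_append, h1, h2]⟩
    | inv g _ ih =>
      obtain ⟨l, h1⟩ := ih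
      refine ⟨(l.map fun p => (p.1, !p.2)).reverse, ?_⟩
      rw [← h1, List.prod_inv_reverse, List.map_reverse, List.map_map, List.map_map]
      congr 2
      refine List.map_congr_left fun p _ => ?_
      obtain ⟨x, b⟩ := p
      cases b <;> simp [hvl]
  have key2 : ∀ j : Fin 6, ∃ l : List (X × Bool), (l.map vl).prod = φ (DZ.letter j) :=
    fun j => key _ (hf ⟨_, rfl⟩)
  choose h hh using key2
  have hev : ∀ w : List (Fin 6), ((w.flatMap h).map vl).prod = φ (DZ.ev w) := by
    intro w
    induction w with
    | nil => simp [DZ.ev]
    | cons j w ih =>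
      rw [List.flatMap_cons, List.map_append, List.prod_append, ih, hh]
      simp [DZ.ev]
  refine WZ.main k (fun i => ({w | w.flatMap h ∈ M i} : Language (Fin 6)))
    (fun i => isContextFree_preimage h (hM i)) (fun w => ?_)
  have h1 : DZ.ev w = 1 ↔ w.flatMap h ∈ wordProblem f := by
    change DZ.ev w = 1 ↔ ((w.flatMap h).map vl).prod = 1
    rw [hev, ← map_one φ]
    exact (hφ.eq_iff).symm
  rw [h1, hw]
  rfl

/-- **Theorem.** Let `G` be a group, `φ : ℤ² * ℤ → G` an injective homomorphism and `f : X → G` a
finite family of elements of `G` which generates a subgroup containing the image of `φ` (for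
instance all of `G`). Then the word problem `WP(G, X)` is not an intersection of finitely many
context-free languages; moreover any finitely many context-free languages which contain `WP(G, X)`
have infinitely many words in common which are not in `WP(G, X)`. The case `G = ℤ² * ℤ`, `φ = id`
is Q1, for all finite generating sets. -/
theorem result (G : Type u) [Group G] (φ : Z2Z →* G) (hφ : Function.Injective φ)
    (X : Type v) [Finite X] (f : X → G) (hf : φ.range ≤ Subgroup.closure (Set.range f)) :
    ¬ PolyContextFree (wordProblem f) ∧
      ∀ (k : ℕ) (L : Fin k → Language (X × Bool)), (∀ i, (L i).IsContextFree) →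
        (∀ i, wordProblem f ≤ L i) →
          {w : List (X × Bool) | (∀ i, w ∈ L i) ∧ w ∉ wordProblem f}.Infinite := by
  refine ⟨not_poly φ hφ f hf, ?_⟩
  intro k L hL hW
  by_contra hfin
  rw [Set.not_infinite] at hfin
  set D : Set (List (X × Bool)) := {w | (∀ i, w ∈ L i) ∧ w ∉ wordProblem f} with hD
  haveI : Finite D := hfin
  obtain ⟨n, ⟨e⟩⟩ := Finite.exists_equiv_fin (Fin k ⊕ D)
  set M : Fin k ⊕ D → Language (X × Bool) :=
    Sum.elim L (fun w₀ => ({w | w ≠ w₀.1} : Language (X × Bool))) with hM
  refine not_poly φ hφ f hf ⟨n, fun i => M (e.symm i), fun i => ?_, fun w => ?_⟩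
  · change (M (e.symm i)).IsContextFree
    generalize e.symm i = x
    rcases x with x | x
    · exact hL x
    · exact Pool.Agent.helper83.HS.isContextFree_ne x.1
  · constructor
    · intro hw i
      change w ∈ M (e.symm i)
      generalize e.symm i = x
      rcases x with x | x
      · exact hW x hw
      · change w ≠ x.1
        rintro rfl
        exact x.2.2 hw
    · intro hw
      by_contra hcon
      have h1 : ∀ i, w ∈ L i := by
        intro i
        have h2 : w ∈ M (e.symm (e (Sum.inl i))) := hw (e (Sum.inl i))
        rw [e.symm_apply_apply] at h2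
        exact h2
      have h3 : w ∈ M (e.symm (e (Sum.inr ⟨w, h1, hcon⟩))) := hw (e (Sum.inr ⟨w, h1, hcon⟩))
      rw [e.symm_apply_apply] at h3
      exact h3 rfl

end Pool.Agent.Results.MP_65b1f6_lc.NotPolyContextFree
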